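import Pool.Agent.N157.AW.Base

/-!
# Assembly of the data
-/

set_option autoImplicit false
set_option linter.unusedSectionVars false

namespace Pool.Agent.N157.AW

open Polynomial Pool.Agent.N70.AW Matrix

/-! ### Linear independence by degrees -/

lemma linInd {K ι : Type} [Field K] (f : ι → K[X]) (h0 : ∀ i, f i ≠ 0)
    (hinj : Function.Injective fun i => (f i).natDegree) : LinearIndependent K f := by
  refine linearIndependent_iff'.2 fun s g hsum i hi => ?_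
  by_contra hgi
  have hd : ∀ j, g j ≠ 0 → (g j • f j).degree = ((f j).natDegree : WithBot ℕ) := fun j hj => by
    rw [smul_eq_C_mul, degree_C_mul hj, degree_eq_natDegree (h0 j)]
  have hp : {i | i ∈ s ∧ g i • f i ≠ 0}.Pairwise (Function.onFun Ne fun i => (g i • f i).degree) := by
    intro x hx y hy hxy
    have zx : g x ≠ 0 := (smul_ne_zero_iff.mp hx.2).1
    have zy : g y ≠ 0 := (smul_ne_zero_iff.mp hy.2).1
    rw [Function.onFun, hd x zx, hd y zy]
    intro h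
    exact hxy (hinj (by exact_mod_cast h))
  have h1 := degree_sum_eq_of_disjoint _ s hp
  rw [hsum, degree_zero] at h1
  have h2 := Finset.le_sup hi (f := fun i => (g i • f i).degree)
  rw [← h1, hd i hgi] at h2
  exact absurd (le_bot_iff.1 h2) (by simp)

section pz

variable {K Z : Type} [Field K] [Field Z] [Algebra (RatFunc K) Z]

lemma pz_add (p q : K[X]) : pz Z (p + q) = pz Z p + pz Z q := map_add (pzH K Z) p q
lemma pz_mul (p q : K[X]) : pz Z (p * q) = pz Z p * pz Z q := map_mul (pzH K Z) p q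
lemma pz_neg (p : K[X]) : pz Z (-p) = -pz Z p := map_neg (pzH K Z) p
lemma pz_zero : pz Z (0 : K[X]) = 0 := map_zero (pzH K Z)
lemma pz_one : pz Z (1 : K[X]) = 1 := map_one (pzH K Z)
lemma pz_pow (p : K[X]) (n : ℕ) : pz Z (p ^ n) = pz Z p ^ n := map_pow (pzH K Z) p n
lemma pz_sum {ι : Type} (s : Finset ι) (f : ι → K[X]) :
    pz Z (∑ i ∈ s, f i) = ∑ i ∈ s, pz Z (f i) := map_sum (pzH K Z) f s
lemma pz_ne {p : K[X]} (hp : p ≠ 0) : pz Z p ≠ 0 := pzH_ne hp
lemma gal_pz (γ : Z ≃ₐ[RatFunc K] Z) (p : K[X]) : γ (pz Z p) = pz Z p := γ.commutes _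

end pz

section

variable {K Z : Type} [Field K] [Field Z] [Algebra (RatFunc K) Z] [Algebra K Z]

/-! ### Integration by parts -/

/-- The primitive. -/
noncomputable def IBP (D : Derivation K Z Z) (g₀ : Z) (l : ℕ) (w : K[X]) : Z :=
  ∑ i ∈ Finset.range l, pz Z ((-1) ^ i * derivative^[i] w) * (D^[l - 1 - i]) g₀

lemma ibp {D : Derivation K Z Z} (hD : IsDt D) (g₀ : Z) (l : ℕ) (w : K[X]) :
    pz Z w * (D^[l]) g₀ = pz Z ((-1) ^ l * derivative^[l] w) * g₀ + D (IBP D g₀ l w) := by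
  induction l generalizing w with
  | zero => simp [IBP]
  | succ l ih =>
    have h1 : pz Z w * (D^[l + 1]) g₀ = D (pz Z w * (D^[l]) g₀) -
        pz Z (derivative w) * (D^[l]) g₀ := by
      rw [Derivation.leibniz, smul_eq_mul, smul_eq_mul, hD.poly, Function.iterate_succ_apply']
      ring
    have h2 : IBP D g₀ (l + 1) w = pz Z w * (D^[l]) g₀ - IBP D g₀ l (derivative w) := by
      rw [IBP, Finset.sum_range_succ', IBP]
      have h3 : ∀ i ∈ Finset.range l, pz Z ((-1) ^ (i + 1) * derivative^[i + 1] w) *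
          (D^[l + 1 - 1 - (i + 1)]) g₀ =
          -(pz Z ((-1) ^ i * derivative^[i] (derivative w)) * (D^[l - 1 - i]) g₀) := by
        intro i _
        have h4 : l + 1 - 1 - (i + 1) = l - 1 - i := by omega
        rw [h4, Function.iterate_succ_apply, pow_succ, pz_mul, pz_mul, pz_mul, pz_neg, pz_one]
        ring
      rw [Finset.sum_congr rfl h3, Finset.sum_neg_distrib]
      simp only [pow_zero, one_mul, Function.iterate_zero, id_eq, Nat.add_sub_cancel,
        Nat.sub_zero]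
      ring
    rw [h1, ih (derivative w), h2, map_sub, Function.iterate_succ_apply, pow_succ, pz_mul, pz_mul, pz_mul,
      pz_neg, pz_one]
    ring

/-! ### Combinations of the basis -/

/-- Combinations of the basis with coefficients divisible by `Δ ^ 3`, of degree at most `d`. -/
def Gd {m : ℕ} (Δ : K[X]) (e : Fin m → Z) (d : ℕ) (x : Z) : Prop :=
  ∃ h : Fin m → K[X], (∀ j, Δ ^ 3 ∣ h j) ∧ (∀ j, (h j).natDegree ≤ d) ∧
    x = ∑ j, pz Z (h j) * e j

variable {m : ℕ} {Δ : K[X]} {e : Fin m → Z} {d : ℕ}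

omit [Algebra K Z] in
lemma Gd.zero : Gd Δ e d 0 :=
  ⟨fun _ => 0, fun _ => dvd_zero _, fun _ => by simp, by simp [pz_zero]⟩

omit [Algebra K Z] in
lemma Gd.add {x y : Z} (hx : Gd Δ e d x) (hy : Gd Δ e d y) : Gd Δ e d (x + y) := by
  obtain ⟨h, h1, h2, rfl⟩ := hx
  obtain ⟨h', h1', h2', rfl⟩ := hy
  refine ⟨fun j => h j + h' j, fun j => dvd_add (h1 j) (h1' j), fun j =>
    (natDegree_add_le _ _).trans (max_le (h2 j) (h2' j)), ?_⟩
  rw [← Finset.sum_add_distrib]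
  exact Finset.sum_congr rfl fun j _ => by rw [pz_add, add_mul]

omit [Algebra K Z] in
lemma Gd.neg {x : Z} (hx : Gd Δ e d x) : Gd Δ e d (-x) := by
  obtain ⟨h, h1, h2, rfl⟩ := hx
  refine ⟨fun j => -h j, fun j => (dvd_neg).2 (h1 j), fun j => by
    rw [natDegree_neg]; exact h2 j, ?_⟩
  rw [← Finset.sum_neg_distrib]
  exact Finset.sum_congr rfl fun j _ => by rw [pz_neg, neg_mul]

omit [Algebra K Z] in
lemma Gd.sum {ι : Type} (s : Finset ι) {f : ι → Z} (hf : ∀ i ∈ s, Gd Δ e d (f i)) :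
    Gd Δ e d (∑ i ∈ s, f i) := by
  classical
  induction s using Finset.induction_on with
  | empty => exact Gd.zero
  | insert a s ha ih =>
    rw [Finset.sum_insert ha]
    exact (hf a (Finset.mem_insert_self _ _)).add
      (ih fun i hi => hf i (Finset.mem_insert_of_mem hi))

lemma Gd.single {D : Derivation K Z Z} {g₀ : Z} (hΔ : Δ ≠ 0)
    (he : ∀ l : Fin m, e l = pz Z Δ * (D^[(l : ℕ)]) g₀) {w : K[X]} (hw : Δ ^ 4 ∣ w)
    (hd : w.natDegree ≤ d) {j : ℕ} (hj : j < m) : Gd Δ e d (pz Z w * (D^[j]) g₀) := by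
  obtain ⟨w', rfl⟩ : Δ ∣ w := (dvd_pow_self Δ (by norm_num)).trans hw
  have h1 : Δ ^ 3 ∣ w' := by
    rw [pow_succ' Δ 3] at hw
    exact (mul_dvd_mul_iff_left hΔ).1 hw
  refine ⟨Pi.single ⟨j, hj⟩ w', fun i => ?_, fun i => ?_, ?_⟩
  · by_cases h : i = ⟨j, hj⟩
    · subst h; rw [Pi.single_eq_same]; exact h1
    · rw [Pi.single_eq_of_ne h]; exact dvd_zero _
  · by_cases h : i = ⟨j, hj⟩
    · subst h
      rw [Pi.single_eq_same]
      refine le_trans ?_ hd
      by_cases h2 : w' = 0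
      · rw [h2, natDegree_zero]; exact Nat.zero_le _
      · rw [natDegree_mul hΔ h2]; exact Nat.le_add_left _ _
    · rw [Pi.single_eq_of_ne h, natDegree_zero]; exact Nat.zero_le _
  · rw [Finset.sum_eq_single ⟨j, hj⟩]
    · rw [Pi.single_eq_same, he, pz_mul]
      ring
    · intro i _ hi
      rw [Pi.single_eq_of_ne hi, pz_zero, zero_mul]
    · intro h; exact absurd (Finset.mem_univ _) h

lemma Gd.ibp {D : Derivation K Z Z} {g₀ : Z} (hΔ : Δ ≠ 0)
    (he : ∀ l : Fin m, e l = pz Z Δ * (D^[(l : ℕ)]) g₀) {w : K[X]} (hw : Δ ^ (m + 4) ∣ w)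
    (hd : w.natDegree ≤ d) {l : ℕ} (hl : l ≤ m) : Gd Δ e d (IBP D g₀ l w) := by
  refine Gd.sum _ fun i hi => ?_
  have hi' := Finset.mem_range.1 hi
  refine Gd.single hΔ he ?_ ?_ (by omega)
  · refine Dvd.dvd.mul_left ?_ _
    refine (pow_dvd_pow Δ ?_).trans (pow_sub_dvd_iterate_derivative_of_pow_dvd i hw)
    omega
  · refine natDegree_mul_le.trans ?_
    have h1 : ((-1 : K[X]) ^ i).natDegree = 0 := by
      rw [natDegree_pow, natDegree_neg, natDegree_one, mul_zero]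
    rw [h1, zero_add]
    exact (natDegree_iterate_derivative _ _).trans ((Nat.sub_le _ _).trans hd)

end

/-! ### The sequences -/

/-- The sequences of the data. -/
structure Sq {K Z : Type} [Field K] [Field Z] [Algebra (RatFunc K) Z] [Algebra K Z]
    (P : Subgroup (Z ≃ₐ[RatFunc K] Z)) {m : ℕ} (D : Derivation K Z Z) (g₀ : Z) (e es : Fin m → Z)
    (S : Matrix (Fin m) (Fin m) K[X]) (α β : K[X]) (κt : ℕ → K[X]) (xt : ℕ → Z)
    (Mt Lt : ℕ → Matrix (Fin m) (Fin m) K[X]) (x0 : Z) (M0 L0 : Matrix (Fin m) (Fin m) K[X])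
    (c0 c1 t0 : ℕ) (ν : ℤ) : Prop where
  β0 : β ≠ 0
  h0 : ∀ γ : Z ≃ₐ[RatFunc K] Z, γ g₀ = g₀ ↔ γ ∈ P
  md : ∀ t, MD P D e es S (t + c1) (xt t) (Mt t) (Lt t)
  md0 : MD P D e es S c0 x0 M0 L0
  dx : ∀ t, D (xt t) = pz Z (κt t) * (pz Z β * g₀)
  dx0 : D x0 = (pz Z α + pz Z β * g₀) ^ 2 - pz Z α ^ 2
  ne : ∀ t, t0 ≤ t → κt t ≠ 0
  dg : ∀ t, t0 ≤ t → ((κt t).natDegree : ℤ) = t + ν

section

variable {K Z : Type} [Field K] [CharZero K] [Field Z] [Algebra (RatFunc K) Z] [Algebra K Z]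

theorem exists_sq (hdeg : St_deg) {P : Subgroup (Z ≃ₐ[RatFunc K] Z)} {m : ℕ}
    {D : Derivation K Z Z} (hD : IsDt D) {g₀ : Z}
    (h0 : ∀ γ : Z ≃ₐ[RatFunc K] Z, γ g₀ = g₀ ↔ γ ∈ P) {Δ : K[X]} {e es : Fin m → Z}
    {S : Matrix (Fin m) (Fin m) K[X]} {q : K[X]} {B : ℕ} {aN cN : Fin m → K[X]}
    (hB : Bs P m D g₀ Δ e es S q B aN cN) :
    ∃ (α β : K[X]) (κt : ℕ → K[X]) (xt : ℕ → Z) (Mt Lt : ℕ → Matrix (Fin m) (Fin m) K[X])
      (x0 : Z) (M0 L0 : Matrix (Fin m) (Fin m) K[X]) (c0 c1 t0 : ℕ) (ν : ℤ),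
      Sq P D g₀ e es S α β κt xt Mt Lt x0 M0 L0 c0 c1 t0 ν := by
  classical
  have hΔ0 := hB.Δ0
  -- the element of degree zero
  obtain ⟨β, hβ⟩ : ∃ β : K[X], β = Δ ^ (m + 8) := ⟨_, rfl⟩
  obtain ⟨wc, hwc⟩ : ∃ wc : Fin m → K[X], wc = fun l => Δ ^ (2 * m + 15) * cN l := ⟨_, rfl⟩
  obtain ⟨A, hA⟩ : ∃ A : K[X], A = ∑ l : Fin m, (-1) ^ (l : ℕ) * derivative^[(l : ℕ)] (wc l) :=
    ⟨_, rfl⟩
  obtain ⟨Y0, hY0⟩ : ∃ Y0 : Z, Y0 = ∑ l : Fin m, IBP D g₀ l (wc l) := ⟨_, rfl⟩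
  have hrel0 : pz Z β ^ 2 * g₀ ^ 2 = pz Z A * g₀ + D Y0 := by
    have h1 : pz Z β ^ 2 * g₀ ^ 2 = pz Z (Δ ^ (2 * m + 15)) * (pz Z Δ * g₀ ^ 2) := by
      rw [← pz_pow, hβ, ← mul_assoc, ← pz_mul]
      congr 2
      ring
    have h2 : ∀ l : Fin m, pz Z (Δ ^ (2 * m + 15)) * (pz Z (cN l) * (D^[(l : ℕ)]) g₀) =
        pz Z ((-1) ^ (l : ℕ) * derivative^[(l : ℕ)] (wc l)) * g₀ + D (IBP D g₀ l (wc l)) := by
      intro l
      rw [← ibp hD, hwc, pz_mul]
      ring
    rw [h1, hB.c_eq, Finset.mul_sum, Finset.sum_congr rfl fun l _ => h2 l,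
      Finset.sum_add_distrib, ← Finset.sum_mul, ← pz_sum, ← map_sum, ← hA, ← hY0]
  have hdA : β ∣ A := by
    rw [hA]
    refine Finset.dvd_sum fun l _ => Dvd.dvd.mul_left ?_ _
    rw [hβ]
    refine (pow_dvd_pow Δ ?_).trans (pow_sub_dvd_iterate_derivative_of_pow_dvd (l : ℕ)
      (n := 2 * m + 15) (p := wc l) (q := Δ) ?_)
    · have := l.2; omega
    · rw [hwc]; exact Dvd.intro _ rfl
  obtain ⟨α0, hα0⟩ := hdA
  obtain ⟨α, hα⟩ : ∃ α : K[X], α = C (-(2⁻¹ : K)) * α0 := ⟨_, rfl⟩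
  have hαβ : 2 * α * β = -A := by
    have h1 : (2 : K[X]) * C (-(2⁻¹ : K)) = -1 := by
      have h2 : (2 : K[X]) = C (2 : K) := (map_ofNat C 2).symm
      rw [h2, ← C_mul, mul_neg, mul_inv_cancel₀ two_ne_zero, C_neg, C_1]
    rw [hα, hα0]
    linear_combination α0 * β * h1
  have hg0 : Gd Δ e (Finset.univ.sup fun l => (wc l).natDegree) Y0 := by
    rw [hY0]
    refine Gd.sum _ fun l _ => Gd.ibp hΔ0 hB.e_eq ?_ (Finset.le_sup (f := fun l =>
      (wc l).natDegree) (Finset.mem_univ l)) l.2.le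
    rw [hwc]
    exact (pow_dvd_pow Δ (by omega)).trans (Dvd.intro _ rfl)
  obtain ⟨h00, h01, h02, h03⟩ := hg0
  obtain ⟨M0, L0, hM0⟩ := hB.mulx h00 _ h01 h02
  rw [← h03] at hM0
  -- the sequences
  obtain ⟨p, hp⟩ : ∃ p : Fin (m + 1) → K[X], p = fun l : Fin (m + 1) =>
      if h : (l : ℕ) < m then -(Δ ^ (2 * m + 15) * aN ⟨l, h⟩) else Δ ^ (2 * m + 16) := ⟨_, rfl⟩
  have hp1 : ∀ l : Fin m, p l.castSucc = -(Δ ^ (2 * m + 15) * aN l) := fun l => by
    have h1 : ((l.castSucc : Fin (m + 1)) : ℕ) < m := l.2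
    rw [hp]
    beta_reduce
    rw [dif_pos h1]
    rfl
  have hp2 : p (Fin.last m) = Δ ^ (2 * m + 16) := by
    rw [hp]
    beta_reduce
    rw [dif_neg (by simp)]
  have hpd : ∀ l, Δ ^ (2 * m + 15) ∣ p l := by
    intro l
    refine Fin.lastCases ?_ (fun l => ?_) l
    · rw [hp2]; exact pow_dvd_pow Δ (by omega)
    · rw [hp1]; exact (dvd_neg).2 (Dvd.intro _ rfl)
  obtain ⟨κ', hκ'⟩ : ∃ κ' : ℕ → K[X], κ' = fun t => ∑ l : Fin (m + 1),
      (-1 : K[X]) ^ (l : ℕ) * derivative^[(l : ℕ)] (p l * X ^ t) := ⟨_, rfl⟩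
  obtain ⟨Y, hY⟩ : ∃ Y : ℕ → Z, Y = fun t => ∑ l : Fin (m + 1), IBP D g₀ l (p l * X ^ t) :=
    ⟨_, rfl⟩
  have hrel : ∀ t, 0 = pz Z (κ' t) * g₀ + D (Y t) := by
    intro t
    have h1 : ∑ l : Fin (m + 1), pz Z (p l * X ^ t) * (D^[(l : ℕ)]) g₀ = 0 := by
      rw [Fin.sum_univ_castSucc, hp2]
      have h2 : ∀ l : Fin m, pz Z (p l.castSucc * X ^ t) *
          (D^[((l.castSucc : Fin (m + 1)) : ℕ)]) g₀ =
          -(pz Z (Δ ^ (2 * m + 15) * X ^ t) * (pz Z (aN l) * (D^[(l : ℕ)]) g₀)) := by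
        intro l
        rw [hp1, Fin.val_castSucc, pz_mul, pz_mul, pz_neg, pz_mul]
        ring
      rw [Finset.sum_congr rfl fun l _ => h2 l, Finset.sum_neg_distrib, ← Finset.mul_sum,
        ← hB.a_eq, Fin.val_last]
      rw [pz_mul, pz_mul, pow_succ Δ (2 * m + 15), pz_mul]
      ring
    have h3 : ∀ l : Fin (m + 1), pz Z (p l * X ^ t) * (D^[(l : ℕ)]) g₀ =
        pz Z ((-1 : K[X]) ^ (l : ℕ) * derivative^[(l : ℕ)] (p l * X ^ t)) * g₀ +
          D (IBP D g₀ l (p l * X ^ t)) := fun l => ibp hD g₀ _ _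
    rw [Finset.sum_congr rfl fun l _ => h3 l, Finset.sum_add_distrib, ← Finset.sum_mul,
      ← pz_sum, ← map_sum] at h1
    rw [hκ', hY]
    exact h1.symm
  have hdκ : ∀ t, β ∣ κ' t := by
    intro t
    rw [hκ']
    refine Finset.dvd_sum fun l _ => Dvd.dvd.mul_left ?_ _
    rw [hβ]
    refine (pow_dvd_pow Δ ?_).trans (pow_sub_dvd_iterate_derivative_of_pow_dvd (l : ℕ)
      (n := 2 * m + 15) (p := p l * X ^ t) (q := Δ) ((hpd l).mul_right _))
    have := l.2; omega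
  choose κt hκt using hdκ
  obtain ⟨d1, hd1⟩ : ∃ d1 : ℕ, d1 = Finset.univ.sup fun l => (p l).natDegree := ⟨_, rfl⟩
  have hg1 : ∀ t, Gd Δ e (t + d1) (-(Y t)) := by
    intro t
    refine Gd.neg ?_
    rw [hY]
    refine Gd.sum _ fun l _ => Gd.ibp hΔ0 hB.e_eq ?_ ?_ (by have := l.2; omega)
    · exact (pow_dvd_pow Δ (by omega)).trans ((hpd l).mul_right _)
    · refine natDegree_mul_le.trans ?_
      rw [natDegree_X_pow, add_comm t]
      refine Nat.add_le_add_right ?_ t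
      rw [hd1]
      exact Finset.le_sup (f := fun l => (p l).natDegree) (Finset.mem_univ l)
  have hg2 : ∀ t, ∃ M L, MD P D e es S (t + (d1 + B)) (-(Y t)) M L := by
    intro t
    obtain ⟨h00, h01, h02, h03⟩ := hg1 t
    obtain ⟨M, L, hM⟩ := hB.mulx h00 _ h01 h02
    rw [← h03, add_assoc] at hM
    exact ⟨M, L, hM⟩
  choose Mt Lt hMt using hg2
  obtain ⟨μ, t0, hμ⟩ := hdeg K m p (by rw [hp2]; exact pow_ne_zero _ hΔ0)
  have hβ0 : β ≠ 0 := by rw [hβ]; exact pow_ne_zero _ hΔ0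
  have hμ1 : ∀ t, t0 ≤ t → κ' t ≠ 0 := fun t ht => by rw [hκ']; exact (hμ t ht).1
  have hne : ∀ t, t0 ≤ t → κt t ≠ 0 := fun t ht h => by
    apply hμ1 t ht
    rw [hκt, h, mul_zero]
  refine ⟨α, β, κt, fun t => -(Y t), Mt, Lt, Y0, M0, L0, _, d1 + B, t0, μ - β.natDegree,
    hβ0, h0, hMt, hM0, fun t => ?_, ?_, hne, fun t ht => ?_⟩
  · have h1 := hrel t
    rw [hκt, pz_mul] at h1
    rw [map_neg]
    linear_combination h1
  · have h1 : 2 * pz Z α * pz Z β = -pz Z A := by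
      rw [← pz_neg, ← hαβ, pz_mul, pz_mul]
      congr 2
      exact (map_ofNat (pzH K Z) 2).symm
    linear_combination -hrel0 - g₀ * h1
  · have h1 := (hμ t ht).2
    have h2 : κ' t = ∑ l : Fin (m + 1),
      (-1 : K[X]) ^ (l : ℕ) * derivative^[(l : ℕ)] (p l * X ^ t) := by rw [hκ']
    rw [← h2, hκt, natDegree_mul hβ0 (hne t ht)] at h1
    push_cast at h1
    linarith

/-! ### The data -/

variable {ι : Type}

/-- The polynomials. -/
def κf (α : K[X]) (κt : ℕ → K[X]) (τ : ι → ℕ) : Option ι → K[X]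
  | none => α
  | some i => κt (τ i)

/-- The elements `v`. -/
noncomputable def vf (α β : K[X]) (g₀ : Z) (κt : ℕ → K[X]) (τ : ι → ℕ) : Option ι → Z
  | none => pz Z α + pz Z β * g₀
  | some i => pz Z (κt (τ i))

/-- The elements `x` and their matrices. -/
def xf {A : Type} [Zero A] (x0 : A) (xt : ℕ → A) (τ : ι → ℕ) : Option ι → Option ι → A
  | none, none => x0
  | none, some i => xt (τ i)
  | some i, none => xt (τ i)
  | some _, some _ => 0

theorem mkDt {P : Subgroup (Z ≃ₐ[RatFunc K] Z)} {m : ℕ}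
    {D : Derivation K Z Z} (hD : IsDt D) {g₀ : Z} {Δ : K[X]} {e es : Fin m → Z}
    {S : Matrix (Fin m) (Fin m) K[X]} {q : K[X]} {B : ℕ} {aN cN : Fin m → K[X]}
    (hB : Bs P m D g₀ Δ e es S q B aN cN) {α β : K[X]} {κt : ℕ → K[X]} {xt : ℕ → Z}
    {Mt Lt : ℕ → Matrix (Fin m) (Fin m) K[X]} {x0 : Z} {M0 L0 : Matrix (Fin m) (Fin m) K[X]}
    {c0 c1 t0 : ℕ} {ν : ℤ} (hS : Sq P D g₀ e es S α β κt xt Mt Lt x0 M0 L0 c0 c1 t0 ν)
    [Fintype ι] (τ : ι → ℕ) (k d : ℕ) (hτ : ∀ i, t0 ≤ τ i) (hinj : Function.Injective τ)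
    (hk : ∀ i, (τ i : ℤ) + ν ≤ k) (hα : α.natDegree ≤ k) (htop : ∃ i, (τ i : ℤ) + ν = k)
    (hd0 : c0 ≤ d) (hd : ∀ i, τ i + c1 ≤ d) (hdk : d ≤ 2 * k)
    (hcard : k + 3 < 2 * Fintype.card ι) :
    Dt P m k d (κf α κt τ) (vf α β g₀ κt τ) (xf x0 xt τ) e es S q (xf M0 Mt τ) (xf L0 Lt τ) where
  fix_e := hB.fix_e
  fix_es := hB.fix_es
  fix_v := by
    rintro (_ | i) γ hγ
    · show γ (pz Z α + pz Z β * g₀) = pz Z α + pz Z β * g₀
      rw [map_add, map_mul, gal_pz, gal_pz, (hS.h0 γ).2 hγ]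
    · exact gal_pz γ _
  fix_x := by
    rintro (_ | i) (_ | j) γ hγ
    · exact hS.md0.fix γ hγ
    · exact (hS.md _).fix γ hγ
    · exact (hS.md _).fix γ hγ
    · exact map_zero γ
  dual1 := hB.dual1
  dual0 := hB.dual0
  e_es := hB.e_es
  det := hB.det
  q_ne := hB.q_ne
  symS := hB.symS
  mul_e := by
    rintro (_ | i) (_ | j) l'
    · exact hS.md0.mul_e l'
    · exact (hS.md _).mul_e l'
    · exact (hS.md _).mul_e l'
    · show (0 : Z) * e l' = ∑ l, pz Z ((0 : Matrix (Fin m) (Fin m) K[X]) l l') * e l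
      simp only [Matrix.zero_apply, pz_zero, zero_mul, Finset.sum_const_zero]
  mul_es := by
    rintro (_ | i) (_ | j) l
    · exact hS.md0.mul_es l
    · exact (hS.md _).mul_es l
    · exact (hS.md _).mul_es l
    · show (0 : Z) * es l = ∑ l', pz Z ((0 : Matrix (Fin m) (Fin m) K[X]) l l') * es l'
      simp only [Matrix.zero_apply, pz_zero, zero_mul, Finset.sum_const_zero]
  fac := by
    rintro (_ | i) (_ | j)
    · exact hS.md0.fac
    · exact (hS.md _).fac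
    · exact (hS.md _).fac
    · exact (Matrix.zero_mul S).symm
  symL := by
    rintro (_ | i) (_ | j)
    · exact hS.md0.symL
    · exact (hS.md _).symL
    · exact (hS.md _).symL
    · exact Matrix.transpose_zero
  deg := by
    rintro (_ | i) (_ | j) l l'
    · exact (hS.md0.deg l l').trans hd0
    · exact ((hS.md _).deg l l').trans (hd j)
    · exact ((hS.md _).deg l l').trans (hd i)
    · show ((0 : Matrix (Fin m) (Fin m) K[X]) l l').natDegree ≤ d
      rw [Matrix.zero_apply, natDegree_zero]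
      exact Nat.zero_le _
  symx := by
    rintro (_ | i) (_ | j) <;> rfl
  symM := by
    rintro (_ | i) (_ | j) <;> rfl
  zero := fun _ _ => rfl
  zeroM := fun _ _ => rfl
  der := by
    rintro (_ | i) (_ | j)
    · show (pz Z α + pz Z β * g₀) * (pz Z α + pz Z β * g₀) = pz Z (α * α) +
        ∑ l, ∑ l', e l * pz Z (derivative (M0 l l')) * es l'
      rw [← hS.md0.der, hS.dx0, pz_mul]
      ring
    · show (pz Z α + pz Z β * g₀) * pz Z (κt (τ j)) = pz Z (α * κt (τ j)) +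
        ∑ l, ∑ l', e l * pz Z (derivative (Mt (τ j) l l')) * es l'
      rw [← (hS.md _).der, hS.dx, pz_mul]
      ring
    · show pz Z (κt (τ i)) * (pz Z α + pz Z β * g₀) = pz Z (κt (τ i) * α) +
        ∑ l, ∑ l', e l * pz Z (derivative (Mt (τ i) l l')) * es l'
      rw [← (hS.md _).der, hS.dx, pz_mul]
      ring
    · show pz Z (κt (τ i)) * pz Z (κt (τ j)) = pz Z (κt (τ i) * κt (τ j)) +
        ∑ l, ∑ l', e l * pz Z (derivative ((0 : Matrix (Fin m) (Fin m) K[X]) l l')) * es l'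
      simp only [Matrix.zero_apply, map_zero, pz_zero, mul_zero, zero_mul,
        Finset.sum_const_zero, add_zero]
      rw [pz_mul]
  v_some := fun _ => rfl
  stab := by
    intro γ h
    obtain ⟨i, _⟩ := htop
    have h1 : γ (xt (τ i)) = xt (τ i) := h i
    have h2 := congrArg D h1
    rw [hD.comm, hS.dx, map_mul, map_mul, gal_pz, gal_pz] at h2
    have h3 := mul_left_cancel₀ (pz_ne (hS.ne _ (hτ i))) h2
    have h4 := mul_left_cancel₀ (pz_ne hS.β0) h3
    exact (hS.h0 γ).1 h4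
  lin := by
    refine linInd _ (fun i => hS.ne _ (hτ i)) fun i j hij => hinj ?_
    have h1 := hS.dg _ (hτ i)
    have h2 := hS.dg _ (hτ j)
    have h3 : (κt (τ i)).natDegree = (κt (τ j)).natDegree := hij
    rw [h3] at h1
    omega
  kdeg := by
    rintro (_ | i)
    · exact hα
    · have h1 := hS.dg _ (hτ i)
      have h2 := hk i
      show (κt (τ i)).natDegree ≤ k
      omega
  ktop := by
    obtain ⟨i, hi⟩ := htop
    refine ⟨i, ?_⟩
    have h1 := hS.dg _ (hτ i)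
    show (κt (τ i)).natDegree = k
    omega
  dk := hdk
  card := hcard

end

/-- **The data.** -/
theorem datOf : St_datOf := by
  intro hder hcv hdeg K Z _ _ _ _ _ _ _ _ hconst P m hE
  obtain ⟨D, hD⟩ := hder K Z hconst
  obtain ⟨g, hg, hsgn⟩ := hE
  obtain ⟨g₀, h0, hdet⟩ := hcv K Z D hD P m g hg
  obtain ⟨Δ, e, es, S, q, B, aN, cN, hB⟩ := base hD hg hsgn h0 hdet
  obtain ⟨α, β, κt, xt, Mt, Lt, x0, M0, L0, c0, c1, t0, ν, hS⟩ := exists_sq hdeg hD h0 hB
  refine ⟨α.natDegree + 4 * (ν.natAbs + t0 + c0 + c1 + 4), fun k hk => ?_⟩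
  obtain ⟨p, hp⟩ : ∃ p : ℕ, (p : ℤ) = (k : ℤ) - ν - t0 + 1 :=
    ⟨((k : ℤ) - ν - t0 + 1).toNat, by omega⟩
  obtain ⟨t1, ht1⟩ : ∃ t1 : ℕ, (t1 : ℤ) = (k : ℤ) + 2 - ν := ⟨((k : ℤ) + 2 - ν).toNat, by omega⟩
  obtain ⟨τ, hτ⟩ : ∃ τ : Option (Fin p) → ℕ, τ = fun j => j.elim t1 fun i => t0 + i := ⟨_, rfl⟩
  have hτn : τ none = t1 := by rw [hτ]; rfl
  have hτs : ∀ i : Fin p, τ (some i) = t0 + i := fun i => by rw [hτ]; rfl
  refine ⟨p, t1 + c0 + c1, κf α κt τ, vf α β g₀ κt τ, xf x0 xt τ, e, es, S, q, xf M0 Mt τ,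
    xf L0 Lt τ, ?_, ?_, ?_⟩
  · refine mkDt hD hB hS τ (k + 2) (t1 + c0 + c1) ?_ ?_ ?_ ?_ ?_ ?_ ?_ ?_ ?_
    · rintro (_ | i)
      · rw [hτn]; omega
      · rw [hτs]; omega
    · rintro (_ | i) (_ | j) h
      · rfl
      · rw [hτn, hτs] at h
        have := j.2
        omega
      · rw [hτn, hτs] at h
        have := i.2
        omega
      · rw [hτs, hτs] at h
        have : i = j := Fin.ext (by omega)
        rw [this]
    · rintro (_ | i)
      · rw [hτn]; push_cast; omega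
      · rw [hτs]
        have := i.2
        push_cast
        omega
    · omega
    · exact ⟨none, by rw [hτn]; push_cast; omega⟩
    · omega
    · rintro (_ | i)
      · rw [hτn]; omega
      · rw [hτs]
        have := i.2
        omega
    · omega
    · rw [Fintype.card_option, Fintype.card_fin]
      omega
  · show (κt (τ none)).natDegree = k + 2
    have h1 := hS.dg t1 (by omega)
    rw [hτn]
    omega
  · have e1 : (fun j : Option (Fin p) => κf α κt τ (j.map some)) = κf α κt (τ ∘ some) := by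
      funext j; cases j <;> rfl
    have e2 : (fun j : Option (Fin p) => vf α β g₀ κt τ (j.map some)) =
        vf α β g₀ κt (τ ∘ some) := by
      funext j; cases j <;> rfl
    have e3 : (fun i j : Option (Fin p) => xf x0 xt τ (i.map some) (j.map some)) =
        xf x0 xt (τ ∘ some) := by
      funext i j; cases i <;> cases j <;> rfl
    have e4 : (fun i j : Option (Fin p) => xf M0 Mt τ (i.map some) (j.map some)) =
        xf M0 Mt (τ ∘ some) := by
      funext i j; cases i <;> cases j <;> rfl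
    have e5 : (fun i j : Option (Fin p) => xf L0 Lt τ (i.map some) (j.map some)) =
        xf L0 Lt (τ ∘ some) := by
      funext i j; cases i <;> cases j <;> rfl
    rw [e1, e2, e3, e4, e5]
    refine mkDt hD hB hS (τ ∘ some) k (t1 + c0 + c1) ?_ ?_ ?_ ?_ ?_ ?_ ?_ ?_ ?_
    · intro i
      rw [Function.comp_apply, hτs]
      omega
    · intro i j h
      rw [Function.comp_apply, Function.comp_apply, hτs, hτs] at h
      exact Fin.ext (by omega)
    · intro i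
      rw [Function.comp_apply, hτs]
      have := i.2
      push_cast
      omega
    · omega
    · have hp0 : p - 1 < p := by omega
      refine ⟨⟨p - 1, hp0⟩, ?_⟩
      rw [Function.comp_apply, hτs]
      push_cast
      omega
    · omega
    · intro i
      rw [Function.comp_apply, hτs]
      have := i.2
      omega
    · omega
    · rw [Fintype.card_fin]
      omega

end Pool.Agent.N157.AW
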